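import Mathlib

set_option autoImplicit false
set_option linter.unusedSectionVars false

/-!
# Finitely generated domains over countable fields with nonzero Jacobson radical

Let `k` be a countable field. We construct a finitely generated `k`-algebra `R` which is a domain
with `J(R) ≠ 0`.

Idea. Let `G₀ = (F × F) ⋊ ℤ`, where `F` is the free group on `u_n`, respectively `b_n` (`n ∈ ℤ`) and
`ℤ = ⟨a⟩` acts by the shift. It is generated by `a`, `t = u_0` and `b = b_0`, and it is defined by
the relations `b u_n = u_n b`, where `u_n = a ^ n t a ^ (-n)`.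
We deform its group algebra over the central variable `X`: inside the ring of power series over
`End (k[G₀])` we construct a unit `b` with `b u_n = (1 + X r_n) u_n b` for all `n`, where
`r_n` runs through all the elements of the algebra `R` generated by `X` and
`a, a⁻¹, t, t⁻¹, b, b⁻¹` (this uses a fixed point argument, and that the `u_n` freely generate a
free group acting freely on `G₀`). Then all `1 + X r` are units of `R`, so `X ∈ J(R)`.
Moreover `R ∩ (X) = X R` and `R / X R ≅ k[G₀]` has no zero divisors, so `R` is a domain.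
-/

namespace Pool.Agent.Y704.JQ

open Finset

section QH

/-- every nontrivial subgroup has a nontrivial homomorphism to the integers -/
def Indic (G : Type) [Group G] : Prop :=
  ∀ H : Subgroup G, H ≠ ⊥ → ∃ f : H →* Multiplicative ℤ, f ≠ 1

theorem uniqueProds_of_indic (G : Type) [Group G] (hG : Indic G) : UniqueProds G := by
  classical
  have key : ∀ n : ℕ, ∀ A B : Finset G, A.Nonempty → B.Nonempty → #A + #B ≤ n →
      ∃ a ∈ A, ∃ b ∈ B, UniqueMul A B a b := by
    intro n
    induction n with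
    | zero =>
      intro A B hA hB h
      have := hA.card_pos
      omega
    | succ n ih =>
      intro A B hA hB h
      obtain ⟨a₀, ha₀⟩ := hA
      obtain ⟨b₀, hb₀⟩ := hB
      let S : Set G := {x | ∃ a ∈ A, x = a₀⁻¹ * a} ∪ {x | ∃ b ∈ B, x = b * b₀⁻¹}
      let H : Subgroup G := Subgroup.closure S
      by_cases hH : H = ⊥
      · -- all trivial
        have hS : ∀ x ∈ S, x = 1 := by
          intro x hx
          have : x ∈ H := Subgroup.subset_closure hx
          rw [hH] at this
          exact Subgroup.mem_bot.mp this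
        refine ⟨a₀, ha₀, b₀, hb₀, ?_⟩
        intro a b ha hb _
        have h1 := hS (a₀⁻¹ * a) (Or.inl ⟨a, ha, rfl⟩)
        have h2 := hS (b * b₀⁻¹) (Or.inr ⟨b, hb, rfl⟩)
        exact ⟨(inv_mul_eq_one.mp h1).symm, mul_inv_eq_one.mp h2⟩
      · obtain ⟨f, hf⟩ := hG H hH
        have hSne : ∃ x, ∃ hx : x ∈ S, f ⟨x, Subgroup.subset_closure hx⟩ ≠ 1 := by
          by_contra hcon
          push Not at hcon
          apply hf
          ext ⟨x, hx⟩
          have : ∀ x (hx : x ∈ H), f ⟨x, hx⟩ = 1 := by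
            intro x hx
            induction hx using Subgroup.closure_induction with
            | mem y hy => exact hcon y hy
            | one => exact f.map_one
            | mul y z hy hz h1 h2 =>
              have : (⟨y * z, H.mul_mem hy hz⟩ : H) = ⟨y, hy⟩ * ⟨z, hz⟩ := rfl
              rw [this, map_mul, h1, h2, one_mul]
            | inv y hy h1 =>
              have : (⟨y⁻¹, H.inv_mem hy⟩ : H) = ⟨y, hy⟩⁻¹ := rfl
              rw [this, map_inv, h1, inv_one]
          rw [this x hx]; rfl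
        -- level functions
        let g : G → ℤ := fun x => if hx : x ∈ H then (f ⟨x, hx⟩).toAdd else 0
        have gmul : ∀ x ∈ H, ∀ y ∈ H, g (x * y) = g x + g y := by
          intro x hx y hy
          simp only [g, dif_pos hx, dif_pos hy, dif_pos (H.mul_mem hx hy)]
          rw [← toAdd_mul, ← map_mul]; rfl
        have ginv : ∀ x ∈ H, g x⁻¹ = - g x := by
          intro x hx
          simp only [g, dif_pos hx, dif_pos (H.inv_mem hx)]
          rw [← toAdd_inv, ← map_inv]; rfl
        have hAH : ∀ a ∈ A, a₀⁻¹ * a ∈ H := fun a ha => Subgroup.subset_closure (Or.inl ⟨a, ha, rfl⟩)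
        have hBH : ∀ b ∈ B, b * b₀⁻¹ ∈ H := fun b hb => Subgroup.subset_closure (Or.inr ⟨b, hb, rfl⟩)
        obtain ⟨aM, haM, hamax⟩ := A.exists_max_image (fun a => g (a₀⁻¹ * a)) ⟨a₀, ha₀⟩
        obtain ⟨bM, hbM, hbmax⟩ := B.exists_max_image (fun b => g (b * b₀⁻¹)) ⟨b₀, hb₀⟩
        let A' := A.filter (fun a => g (a₀⁻¹ * a) = g (a₀⁻¹ * aM))
        let B' := B.filter (fun b => g (b * b₀⁻¹) = g (bM * b₀⁻¹))
        have hcard : #A' + #B' ≤ n := by
          have h1 : #A' ≤ #A := card_filter_le _ _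
          have h2 : #B' ≤ #B := card_filter_le _ _
          by_contra hcon
          have h3 : #A' = #A := by omega
          have h4 : #B' = #B := by omega
          have h5 : A' = A := Finset.eq_of_subset_of_card_le (filter_subset _ _) (by omega)
          have h6 : B' = B := Finset.eq_of_subset_of_card_le (filter_subset _ _) (by omega)
          have h7 : ∀ a ∈ A, g (a₀⁻¹ * a) = 0 := by
            intro a ha
            have e1 : g (a₀⁻¹ * a) = g (a₀⁻¹ * aM) := by
              rw [← h5] at ha; exact (mem_filter.mp ha).2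
            have e2 : g (a₀⁻¹ * a₀) = g (a₀⁻¹ * aM) := by
              rw [← h5] at ha₀; exact (mem_filter.mp ha₀).2
            rw [e1, ← e2, inv_mul_cancel]
            have := gmul 1 H.one_mem 1 H.one_mem
            rw [mul_one] at this
            omega
          have h8 : ∀ b ∈ B, g (b * b₀⁻¹) = 0 := by
            intro b hb
            have e1 : g (b * b₀⁻¹) = g (bM * b₀⁻¹) := by
              rw [← h6] at hb; exact (mem_filter.mp hb).2
            have e2 : g (b₀ * b₀⁻¹) = g (bM * b₀⁻¹) := by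
              rw [← h6] at hb₀; exact (mem_filter.mp hb₀).2
            rw [e1, ← e2, mul_inv_cancel]
            have := gmul 1 H.one_mem 1 H.one_mem
            rw [mul_one] at this
            omega
          obtain ⟨x, hx, hfx⟩ := hSne
          have h9 : g x = 0 := by
            rcases hx with ⟨a, ha, rfl⟩ | ⟨b, hb, rfl⟩
            · exact h7 a ha
            · exact h8 b hb
          apply hfx
          have hxH : x ∈ H := Subgroup.subset_closure hx
          simp only [g, dif_pos hxH] at h9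
          exact toAdd_eq_zero.mp h9
        obtain ⟨a, ha, b, hb, hab⟩ := ih A' B' ⟨aM, mem_filter.mpr ⟨haM, rfl⟩⟩
          ⟨bM, mem_filter.mpr ⟨hbM, rfl⟩⟩ hcard
        obtain ⟨haA, haL⟩ := mem_filter.mp ha
        obtain ⟨hbB, hbL⟩ := mem_filter.mp hb
        refine ⟨a, haA, b, hbB, ?_⟩
        intro x y hx hy hxy
        have e1 : g (a₀⁻¹ * x) + g (y * b₀⁻¹) = g (a₀⁻¹ * a) + g (b * b₀⁻¹) := by
          rw [← gmul _ (hAH x hx) _ (hBH y hy), ← gmul _ (hAH a haA) _ (hBH b hbB)]
          congr 1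
          calc a₀⁻¹ * x * (y * b₀⁻¹) = a₀⁻¹ * (x * y) * b₀⁻¹ := by group
            _ = a₀⁻¹ * (a * b) * b₀⁻¹ := by rw [hxy]
            _ = _ := by group
        have e2 := hamax x hx
        have e3 := hbmax y hy
        exact hab (mem_filter.mpr ⟨hx, by omega⟩) (mem_filter.mpr ⟨hy, by omega⟩) hxy
  exact ⟨fun {A B} hA hB => key _ A B hA hB le_rfl⟩

theorem indic_free (α : Type) : Indic (FreeGroup α) := by
  intro H hH
  have : IsFreeGroup H := inferInstance
  let e := IsFreeGroup.toFreeGroup H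
  have hne : Nonempty (IsFreeGroup.Generators H) := by
    by_contra hcon
    rw [not_nonempty_iff] at hcon
    apply hH
    rw [Subgroup.eq_bot_iff_forall]
    intro x hx
    have h1 : e ⟨x, hx⟩ = 1 := Subsingleton.elim _ _
    have h2 : (⟨x, hx⟩ : H) = 1 := by
      apply e.injective
      rw [h1, map_one]
    exact congrArg Subtype.val h2
  obtain ⟨i⟩ := hne
  refine ⟨(FreeGroup.lift (fun _ => Multiplicative.ofAdd (1 : ℤ))).comp e.toMonoidHom, ?_⟩
  intro h
  have h1 := DFunLike.congr_fun h (e.symm (FreeGroup.of i))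
  simp at h1


theorem indic_of_hom {G Q : Type} [Group G] [Group Q] (H : Subgroup G) (f : H →* Q)
    (hQ : Indic Q) (hf : f ≠ 1) : ∃ f : H →* Multiplicative ℤ, f ≠ 1 := by
  have hr : f.range ≠ ⊥ := by
    intro h
    apply hf
    rw [MonoidHom.range_eq_bot_iff] at h
    exact h
  obtain ⟨g, hg⟩ := hQ f.range hr
  refine ⟨g.comp f.rangeRestrict, ?_⟩
  intro h
  apply hg
  ext ⟨y, x, hx⟩
  have := DFunLike.congr_fun h x
  have h2 : (⟨y, x, hx⟩ : f.range) = f.rangeRestrict x := by
    apply Subtype.ext; exact hx.symm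
  rw [h2]
  exact congrArg _ this


variable (Q : Type) [Group Q]

/-- translation on the free group on a group -/
def shf (m : Q) : FreeGroup Q ≃* FreeGroup Q := FreeGroup.freeGroupCongr (Equiv.mulLeft m)

theorem shf_of (m n : Q) : shf Q m (FreeGroup.of n) = FreeGroup.of (m * n) := by
  simp [shf]

theorem shf_mul (m n : Q) (x : FreeGroup Q) : shf Q (m * n) x = shf Q m (shf Q n x) := by
  have : (shf Q (m * n)).toMonoidHom = (shf Q m).toMonoidHom.comp (shf Q n).toMonoidHom := by
    ext i
    simp [shf_of, mul_assoc]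
  exact DFunLike.congr_fun this x

/-- the translation action of the group on the square of the free group -/
def act : Q →* MulAut (FreeGroup Q × FreeGroup Q) where
  toFun m := MulEquiv.prodCongr (shf Q m) (shf Q m)
  map_one' := by
    ext x
    · have := shf_mul Q 1 1 x.1
      rw [mul_one] at this
      exact ((shf Q 1).injective this).symm
    · have := shf_mul Q 1 1 x.2
      rw [mul_one] at this
      exact ((shf Q 1).injective this).symm
  map_mul' m n := by
    ext x
    · exact shf_mul Q _ _ _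
    · exact shf_mul Q _ _ _

/-- the group `(F(Q) × F(Q)) ⋊ Q` -/
abbrev G0 : Type := (FreeGroup Q × FreeGroup Q) ⋊[act Q] Q


theorem indic_prod : Indic (FreeGroup Q × FreeGroup Q) := by
  intro H hH
  by_cases h2 : (MonoidHom.fst _ _).comp H.subtype = 1
  · by_cases h3 : (MonoidHom.snd _ _).comp H.subtype = 1
    · exfalso
      apply hH
      rw [Subgroup.eq_bot_iff_forall]
      intro x hx
      have e1 := DFunLike.congr_fun h2 (⟨x, hx⟩ : H)
      have e2 := DFunLike.congr_fun h3 (⟨x, hx⟩ : H)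
      exact Prod.ext e1 e2
    · exact indic_of_hom H _ (indic_free Q) h3
  · exact indic_of_hom H _ (indic_free Q) h2

/-- a semidirect product of groups with unique products has unique products -/
theorem uniqueProds_semidirect {N P : Type} [Group N] [Group P] (f : P →* MulAut N)
    (hN : UniqueProds N) (hP : UniqueProds P) : UniqueProds (N ⋊[f] P) where
  uniqueMul_of_nonempty {A B} hA hB := by
    classical
    obtain ⟨q1, hq1, q2, hq2, hq⟩ := hP.uniqueMul_of_nonempty
      (hA.image (fun g : N ⋊[f] P => g.right)) (hB.image (fun g : N ⋊[f] P => g.right))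
    obtain ⟨a0, ha0, ha0'⟩ := mem_image.mp hq1
    obtain ⟨b0, hb0, hb0'⟩ := mem_image.mp hq2
    obtain ⟨x, hx, y, hy, hxy⟩ := hN.uniqueMul_of_nonempty
      (A := (A.filter (fun g => g.right = q1)).image (fun g => (a0⁻¹ * g).left))
      (B := (B.filter (fun g => g.right = q2)).image (fun g => (g * b0⁻¹).left))
      (Finset.Nonempty.image ⟨a0, mem_filter.mpr ⟨ha0, ha0'⟩⟩ _)
      (Finset.Nonempty.image ⟨b0, mem_filter.mpr ⟨hb0, hb0'⟩⟩ _)
    obtain ⟨a, ha, rfl⟩ := mem_image.mp hx
    obtain ⟨b, hb, rfl⟩ := mem_image.mp hy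
    rw [mem_filter] at ha hb
    have eA : ∀ g : N ⋊[f] P, g.right = q1 → a0⁻¹ * g = SemidirectProduct.inl (a0⁻¹ * g).left := by
      intro g hg
      apply SemidirectProduct.ext
      · rw [SemidirectProduct.left_inl]
      · rw [SemidirectProduct.right_inl, SemidirectProduct.mul_right, SemidirectProduct.inv_right,
          hg, ha0', inv_mul_cancel]
    have eB : ∀ g : N ⋊[f] P, g.right = q2 → g * b0⁻¹ = SemidirectProduct.inl (g * b0⁻¹).left := by
      intro g hg
      apply SemidirectProduct.ext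
      · rw [SemidirectProduct.left_inl]
      · rw [SemidirectProduct.right_inl, SemidirectProduct.mul_right, SemidirectProduct.inv_right,
          hg, hb0', mul_inv_cancel]
    refine ⟨a, ha.1, b, hb.1, ?_⟩
    intro a' b' ha' hb' hab
    have h1 := hq (mem_image_of_mem (fun g : N ⋊[f] P => g.right) ha')
      (mem_image_of_mem (fun g : N ⋊[f] P => g.right) hb') (by
        have := congrArg (fun g : N ⋊[f] P => g.right) hab
        simp only [SemidirectProduct.mul_right] at this
        rw [this, ha.2, hb.2])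
    have h2 := hxy (mem_image_of_mem (fun g => (a0⁻¹ * g).left) (mem_filter.mpr ⟨ha', h1.1⟩))
      (mem_image_of_mem (fun g => (g * b0⁻¹).left) (mem_filter.mpr ⟨hb', h1.2⟩)) (by
        apply SemidirectProduct.inl_injective (φ := f)
        rw [map_mul, map_mul, ← eA a' h1.1, ← eB b' h1.2, ← eA a ha.2, ← eB b hb.2]
        calc a0⁻¹ * a' * (b' * b0⁻¹) = a0⁻¹ * (a' * b') * b0⁻¹ := by group
          _ = a0⁻¹ * (a * b) * b0⁻¹ := by rw [hab]
          _ = a0⁻¹ * a * (b * b0⁻¹) := by group)
    constructor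
    · have h3 : a0⁻¹ * a' = a0⁻¹ * a := by
        rw [eA a' h1.1, eA a ha.2]
        exact congrArg _ h2.1
      exact mul_left_cancel h3
    · have h3 : b' * b0⁻¹ = b * b0⁻¹ := by
        rw [eB b' h1.2, eB b hb.2]
        exact congrArg _ h2.2
      exact mul_right_cancel h3

instance uniqueProds_G0 [UniqueProds Q] : UniqueProds (G0 Q) :=
  uniqueProds_semidirect (act Q) (uniqueProds_of_indic _ (indic_prod Q)) inferInstance


end QH

section main

open PowerSeries

variable (k : Type) [CommRing k] [IsDomain k] (Q : Type) [Group Q]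

abbrev Lam : Type := MonoidAlgebra k (G0 Q)
abbrev E0 : Type := Module.End k (Lam k Q)
abbrev EE : Type := PowerSeries (E0 k Q)

/-- left multiplication -/
noncomputable def Lm : Lam k Q →ₐ[k] E0 k Q := Algebra.lmul k (Lam k Q)

theorem Lm_apply (x y : Lam k Q) : Lm k Q x y = x * y := rfl

theorem Lm_inj : Function.Injective (Lm k Q) := by
  intro x y h
  have := DFunLike.congr_fun h 1
  rwa [Lm_apply, Lm_apply, mul_one, mul_one] at this

/-- undeformed representation -/
noncomputable def lam : G0 Q →* (EE k Q)ˣ :=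
  (Units.map ((PowerSeries.C : E0 k Q →+* EE k Q) : E0 k Q →* EE k Q)).comp
    ((Units.map ((Lm k Q : Lam k Q →* E0 k Q))).comp (MonoidAlgebra.of k (G0 Q)).toHomUnits)

theorem lam_val (g : G0 Q) : (lam k Q g : EE k Q) = C (Lm k Q (MonoidAlgebra.single g 1)) := rfl

/-- congruence modulo `X ^ i` -/
def cg (i : ℕ) (f g : EE k Q) : Prop := (X : EE k Q) ^ i ∣ f - g

variable {k Q}

theorem cg_iff (i : ℕ) (f g : EE k Q) : cg k Q i f g ↔ ∀ j < i, coeff j f = coeff j g := by
  unfold cg
  rw [PowerSeries.X_pow_dvd_iff]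
  simp [sub_eq_zero]

theorem cg_refl (i : ℕ) (f : EE k Q) : cg k Q i f f := by simp [cg]
theorem cg_symm {i : ℕ} {f g : EE k Q} (h : cg k Q i f g) : cg k Q i g f := by
  rw [cg_iff] at *; intro j hj; exact (h j hj).symm
theorem cg_trans {i : ℕ} {f g h : EE k Q} (h1 : cg k Q i f g) (h2 : cg k Q i g h) : cg k Q i f h := by
  rw [cg_iff] at *; intro j hj; exact (h1 j hj).trans (h2 j hj)
theorem cg_mono {i j : ℕ} (hij : j ≤ i) {f g : EE k Q} (h1 : cg k Q i f g) : cg k Q j f g := by
  rw [cg_iff] at *; intro l hl; exact h1 l (by omega)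
theorem cg_add {i : ℕ} {f g f' g' : EE k Q} (h1 : cg k Q i f g) (h2 : cg k Q i f' g') :
    cg k Q i (f + f') (g + g') := by
  rw [cg_iff] at *; intro j hj; rw [map_add, map_add, h1 j hj, h2 j hj]

theorem cg_mul_left {i : ℕ} {f g : EE k Q} (c : EE k Q) (h : cg k Q i f g) : cg k Q i (c * f) (c * g) := by
  unfold cg at *
  rw [← mul_sub]
  obtain ⟨d, hd⟩ := h
  rw [hd, ← mul_assoc, (PowerSeries.commute_X_pow c i).eq, mul_assoc]
  exact Dvd.intro _ rfl

theorem cg_mul_right {i : ℕ} {f g : EE k Q} (c : EE k Q) (h : cg k Q i f g) : cg k Q i (f * c) (g * c) := by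
  unfold cg at *
  rw [← sub_mul]
  exact Dvd.dvd.mul_right h c

theorem cg_mul {i : ℕ} {f g f' g' : EE k Q} (h1 : cg k Q i f g) (h2 : cg k Q i f' g') :
    cg k Q i (f * f') (g * g') :=
  cg_trans (cg_mul_right _ h1) (cg_mul_left _ h2)

theorem cg_inv {i : ℕ} {f g : (EE k Q)ˣ} (h : cg k Q i (f : EE k Q) g) :
    cg k Q i ((f⁻¹ : (EE k Q)ˣ) : EE k Q) ((g⁻¹ : (EE k Q)ˣ) : EE k Q) := by
  have h1 := cg_mul_right ((g⁻¹ : (EE k Q)ˣ) : EE k Q) (cg_mul_left ((f⁻¹ : (EE k Q)ˣ) : EE k Q) h)
  rw [Units.inv_mul, one_mul, mul_assoc, Units.mul_inv, mul_one] at h1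
  exact cg_symm h1

theorem cg_X_mul {i : ℕ} {f g : EE k Q} (h : cg k Q i f g) : cg k Q (i + 1) (X * f) (X * g) := by
  unfold cg at *
  obtain ⟨d, hd⟩ := h
  rw [← mul_sub, hd, ← mul_assoc, ← pow_succ']
  exact Dvd.intro _ rfl

/-- the unit `1 + X s` -/
noncomputable def oneX (s : EE k Q) : (EE k Q)ˣ where
  val := 1 + X * s
  inv := invOfUnit (1 + X * s) 1
  val_inv := mul_invOfUnit _ _ (by simp)
  inv_val := invOfUnit_mul _ _ (by simp)

theorem oneX_val (s : EE k Q) : (oneX s : EE k Q) = 1 + X * s := rfl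

variable (k Q)

/-- the indices of the generators: five letters and the elements of `Q` -/
abbrev Gn : Type := Fin 5 ⊕ Q

def uu {Q : Type} [Group Q] (n : Q) : G0 Q := SemidirectProduct.inl (FreeGroup.of n, 1)
def bb {Q : Type} [Group Q] (n : Q) : G0 Q := SemidirectProduct.inl (1, FreeGroup.of n)
def qq {Q : Type} [Group Q] (n : Q) : G0 Q := SemidirectProduct.inr n

/-- the generators of the ring attached to a unit `b` -/
noncomputable def gens (b : (EE k Q)ˣ) : Gn Q → EE k Q
  | Sum.inl j => if j = 0 then X else if j = 1 then lam k Q (uu (1 : Q))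
      else if j = 2 then ((lam k Q (uu (1 : Q)))⁻¹ : (EE k Q)ˣ)
      else if j = 3 then b else (b⁻¹ : (EE k Q)ˣ)
  | Sum.inr q => lam k Q (qq q)

noncomputable def ev (b : (EE k Q)ˣ) : FreeAlgebra k (Gn Q) →ₐ[k] EE k Q := FreeAlgebra.lift k (gens k Q b)

theorem ev_cong (i : ℕ) (b b' : (EE k Q)ˣ) (h : cg k Q i (b : EE k Q) b') (p : FreeAlgebra k (Gn Q)) :
    cg k Q i (ev k Q b p) (ev k Q b' p) := by
  induction p with
  | grade0 r => rw [AlgHom.commutes, AlgHom.commutes]; exact cg_refl _ _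
  | grade1 x =>
    unfold ev
    rw [FreeAlgebra.lift_ι_apply, FreeAlgebra.lift_ι_apply]
    rcases x with j | q
    · change cg k Q i (if _ then _ else _) (if _ then _ else _)
      split_ifs
      · exact cg_refl _ _
      · exact cg_refl _ _
      · exact cg_refl _ _
      · exact h
      · exact cg_inv h
    · exact cg_refl _ _
  | mul p q hp hq => rw [map_mul, map_mul]; exact cg_mul hp hq
  | add p q hp hq => rw [map_add, map_add]; exact cg_add hp hq

variable (rr : Q → FreeAlgebra k (Gn Q))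

noncomputable def theta (b : (EE k Q)ˣ) : FreeGroup Q →* (EE k Q)ˣ :=
  FreeGroup.lift (fun n => oneX (ev k Q b (rr n)) * lam k Q (uu n))

theorem theta_cong (i : ℕ) (b b' : (EE k Q)ˣ) (h : cg k Q i (b : EE k Q) b') (p : FreeGroup Q) :
    cg k Q (i + 1) (theta k Q rr b p : EE k Q) (theta k Q rr b' p) := by
  induction p using FreeGroup.induction_on with
  | C1 => rw [map_one, map_one]; exact cg_refl _ _
  | of n =>
    unfold theta
    rw [FreeGroup.lift_apply_of, FreeGroup.lift_apply_of, Units.val_mul, Units.val_mul, oneX_val, oneX_val]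
    exact cg_mul_right _ (cg_add (cg_refl _ _) (cg_X_mul (ev_cong k Q i b b' h _)))
  | inv_of n hn => rw [map_inv, map_inv]; exact cg_inv hn
  | mul p q hp hq => rw [map_mul, map_mul, Units.val_mul, Units.val_mul]; exact cg_mul hp hq

/-- linear map on the group algebra given by the images of the group elements -/
noncomputable def lin (f : G0 Q → Lam k Q) : E0 k Q :=
  (Finsupp.linearCombination k f) ∘ₗ (MonoidAlgebra.coeffLinearEquiv k).toLinearMap

theorem lin_single (f : G0 Q → Lam k Q) (g : G0 Q) : lin k Q f (MonoidAlgebra.single g 1) = f g := by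
  simp [lin]

theorem end_ext (f g : E0 k Q) (h : ∀ x : G0 Q, f (MonoidAlgebra.single x 1) = g (MonoidAlgebra.single x 1)) :
    f = g := by
  apply LinearMap.ext
  intro y
  induction y using MonoidAlgebra.induction_linear with
  | zero => simp
  | add x y hx hy => rw [map_add, map_add, hx, hy]
  | single x r =>
    have : (MonoidAlgebra.single x r : Lam k Q) = r • MonoidAlgebra.single x 1 := by simp
    rw [this, map_smul, map_smul, h]

def g00 {Q : Type} [Group Q] (g : G0 Q) : G0 Q := ⟨(1, FreeGroup.of (1 : Q) * g.left.2), g.right⟩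

noncomputable def Phi (b : (EE k Q)ˣ) : EE k Q :=
  PowerSeries.mk (fun j => lin k Q (fun g => (coeff j (theta k Q rr b g.left.1 : EE k Q))
    (MonoidAlgebra.single (g00 g) 1)))

theorem coeff_Phi (b : (EE k Q)ˣ) (j : ℕ) (g : G0 Q) : coeff j (Phi k Q rr b) (MonoidAlgebra.single g 1) =
    (coeff j (theta k Q rr b g.left.1 : EE k Q)) (MonoidAlgebra.single (g00 g) 1) := by
  unfold Phi
  rw [PowerSeries.coeff_mk, lin_single]

theorem Phi_cong (i : ℕ) (b b' : (EE k Q)ˣ) (h : cg k Q i (b : EE k Q) b') :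
    cg k Q (i + 1) (Phi k Q rr b) (Phi k Q rr b') := by
  rw [cg_iff]
  intro j hj
  apply end_ext
  intro g
  rw [coeff_Phi, coeff_Phi]
  have := theta_cong k Q rr i b b' h g.left.1
  rw [cg_iff] at this
  rw [this j hj]

theorem theta_const (b : (EE k Q)ˣ) (p : FreeGroup Q) :
    constantCoeff (theta k Q rr b p : EE k Q) = Lm k Q (MonoidAlgebra.single (SemidirectProduct.inl (p, 1)) 1) := by
  have : (Units.map ((PowerSeries.constantCoeff : EE k Q →+* E0 k Q) : EE k Q →* E0 k Q)).comp (theta k Q rr b) =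
      (Units.map ((PowerSeries.constantCoeff : EE k Q →+* E0 k Q) : EE k Q →* E0 k Q)).comp ((lam k Q).comp
        ((SemidirectProduct.inl).comp (MonoidHom.inl _ _))) := by
    ext n : 2
    simp only [MonoidHom.comp_apply, Units.coe_map, theta, FreeGroup.lift_apply_of, Units.val_mul,
      oneX_val, MonoidHom.coe_coe, map_mul, map_add, map_one, PowerSeries.constantCoeff_X, zero_mul,
      add_zero, one_mul]
    rfl
  have h2 := congrArg Units.val (DFunLike.congr_fun this p)
  simp only [MonoidHom.comp_apply, Units.coe_map, MonoidHom.coe_coe] at h2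
  rw [h2, lam_val]
  simp

theorem Phi_const (b : (EE k Q)ˣ) : constantCoeff (Phi k Q rr b) = Lm k Q (MonoidAlgebra.single (bb (1 : Q)) 1) := by
  apply end_ext
  intro g
  rw [← PowerSeries.coeff_zero_eq_constantCoeff_apply, coeff_Phi,
    PowerSeries.coeff_zero_eq_constantCoeff_apply, theta_const, Lm_apply, Lm_apply,
    MonoidAlgebra.single_mul_single, MonoidAlgebra.single_mul_single]
  congr 1
  apply SemidirectProduct.ext
  · simp only [g00, bb, SemidirectProduct.mul_left, SemidirectProduct.left_inl,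
      SemidirectProduct.right_inl, map_one, MulAut.one_apply]
    ext <;> simp
  · simp [g00, bb]

theorem Phi_comm (b : (EE k Q)ˣ) (n : Q) :
    Phi k Q rr b * lam k Q (uu n) = theta k Q rr b (FreeGroup.of n) * Phi k Q rr b := by
  ext j : 1
  apply end_ext
  intro g
  rw [lam_val, PowerSeries.coeff_mul_C, Module.End.mul_apply, Lm_apply, MonoidAlgebra.single_mul_single,
    mul_one, coeff_Phi, PowerSeries.coeff_mul]
  have h1 : g00 (uu n * g) = g00 g := by
    apply SemidirectProduct.ext
    · simp [g00, uu]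
    · simp [g00, uu]
  have h2 : (uu n * g).left.1 = FreeGroup.of n * g.left.1 := by
    simp [uu]
  rw [h1, h2, map_mul, Units.val_mul, PowerSeries.coeff_mul]
  simp only [LinearMap.sum_apply, Module.End.mul_apply, coeff_Phi]

/-- the unit of `E0` given by left multiplication by `bb (1 : Q)` -/
noncomputable def ub : (E0 k Q)ˣ := (Units.map ((Lm k Q : Lam k Q →* E0 k Q))) ((MonoidAlgebra.of k (G0 Q)).toHomUnits (bb (1 : Q)))

theorem ub_val : (ub k Q : E0 k Q) = Lm k Q (MonoidAlgebra.single (bb (1 : Q)) 1) := rfl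

noncomputable def mkU (f : EE k Q) (hf : constantCoeff f = (ub k Q : E0 k Q)) : (EE k Q)ˣ where
  val := f
  inv := invOfUnit f (ub k Q)
  val_inv := mul_invOfUnit _ _ hf
  inv_val := invOfUnit_mul _ _ hf

noncomputable def PhiU (b : (EE k Q)ˣ) : (EE k Q)ˣ := mkU k Q (Phi k Q rr b) (Phi_const k Q rr b)

noncomputable def bseq : ℕ → (EE k Q)ˣ
  | 0 => lam k Q (bb (1 : Q))
  | n + 1 => PhiU k Q rr (bseq n)

theorem bseq_cong (i : ℕ) : cg k Q (i + 1) (bseq k Q rr (i + 1) : EE k Q) (bseq k Q rr i) := by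
  induction i with
  | zero =>
    rw [cg_iff]
    intro j hj
    have : j = 0 := by omega
    subst this
    rw [PowerSeries.coeff_zero_eq_constantCoeff_apply, PowerSeries.coeff_zero_eq_constantCoeff_apply]
    change constantCoeff (Phi k Q rr _) = constantCoeff (lam k Q (bb (1 : Q)) : EE k Q)
    rw [Phi_const, lam_val, PowerSeries.constantCoeff_C]
  | succ i ih => exact Phi_cong k Q rr (i + 1) _ _ ih

theorem bseq_cong' (i m : ℕ) : cg k Q (i + 1) (bseq k Q rr (i + m) : EE k Q) (bseq k Q rr i) := by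
  induction m with
  | zero => exact cg_refl _ _
  | succ m ih => exact cg_trans (cg_mono (by omega) (bseq_cong k Q rr (i + m))) ih

noncomputable def blim : EE k Q := PowerSeries.mk (fun j => coeff j (bseq k Q rr j : EE k Q))

theorem blim_cong (i : ℕ) : cg k Q (i + 1) (blim k Q rr) (bseq k Q rr i) := by
  rw [cg_iff]
  intro j hj
  unfold blim
  rw [PowerSeries.coeff_mk]
  obtain ⟨m, rfl⟩ := Nat.exists_eq_add_of_le (Nat.lt_succ_iff.mp hj)
  have := bseq_cong' k Q rr j m
  rw [cg_iff] at this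
  exact (this j (by omega)).symm

theorem blim_const : constantCoeff (blim k Q rr) = (ub k Q : E0 k Q) := by
  have := blim_cong k Q rr 1
  rw [cg_iff] at this
  have h := this 0 (by omega)
  rw [PowerSeries.coeff_zero_eq_constantCoeff_apply, PowerSeries.coeff_zero_eq_constantCoeff_apply] at h
  rw [h]
  exact Phi_const k Q rr _

noncomputable def bl : (EE k Q)ˣ := mkU k Q (blim k Q rr) (blim_const k Q rr)

theorem Phi_bl : Phi k Q rr (bl k Q rr) = bl k Q rr := by
  ext j : 1
  have h1 : cg k Q (j + 2) (Phi k Q rr (bl k Q rr)) (bseq k Q rr (j + 1)) :=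
    Phi_cong k Q rr (j + 1) _ _ (blim_cong k Q rr j)
  have h2 : cg k Q (j + 2) (bl k Q rr : EE k Q) (bseq k Q rr (j + 1)) := blim_cong k Q rr (j + 1)
  have h3 := cg_trans h1 (cg_symm h2)
  rw [cg_iff] at h3
  exact h3 j (by omega)

theorem bl_comm (n : Q) : (bl k Q rr : EE k Q) * (lam k Q (uu n) : EE k Q) =
    (1 + X * ev k Q (bl k Q rr) (rr n)) * (lam k Q (uu n) : EE k Q) * (bl k Q rr : EE k Q) := by
  have h := Phi_comm k Q rr (bl k Q rr) n
  rw [Phi_bl] at h
  rw [h]
  unfold theta
  rw [FreeGroup.lift_apply_of, Units.val_mul, oneX_val]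

/-- the ring -/
def RT : Type := (ev k Q (bl k Q rr)).range

noncomputable instance : Ring (RT k Q rr) := inferInstanceAs (Ring (ev k Q (bl k Q rr)).range)
noncomputable instance : Algebra k (RT k Q rr) := inferInstanceAs (Algebra k (ev k Q (bl k Q rr)).range)

noncomputable def vl : RT k Q rr →ₐ[k] EE k Q := ((ev k Q (bl k Q rr)).range).val

theorem vl_inj : Function.Injective (vl k Q rr) := Subtype.val_injective

noncomputable def evR : FreeAlgebra k (Gn Q) →ₐ[k] RT k Q rr := (ev k Q (bl k Q rr)).rangeRestrict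

theorem evR_surj : Function.Surjective (evR k Q rr) := AlgHom.rangeRestrict_surjective _

theorem vl_evR (p : FreeAlgebra k (Gn Q)) : vl k Q rr (evR k Q rr p) = ev k Q (bl k Q rr) p := rfl

noncomputable def gR (j : Gn Q) : RT k Q rr := evR k Q rr (FreeAlgebra.ι k j)

theorem vl_gR (j : Gn Q) : vl k Q rr (gR k Q rr j) = gens k Q (bl k Q rr) j := by
  unfold gR
  rw [vl_evR]
  unfold ev
  rw [FreeAlgebra.lift_ι_apply]

noncomputable def rX : RT k Q rr := gR k Q rr (Sum.inl 0)

theorem vl_X : vl k Q rr (rX k Q rr) = X := vl_gR k Q rr (Sum.inl 0)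

theorem eq_one_of_vl {x y : RT k Q rr} (h : vl k Q rr x * vl k Q rr y = 1) : x * y = 1 := by
  apply vl_inj
  rw [map_mul, h, map_one]

theorem lam_mul_q (m n : Q) : (lam k Q (qq (m * n)) : EE k Q) = lam k Q (qq m) * lam k Q (qq n) := by
  rw [← Units.val_mul, ← map_mul]
  congr 2

noncomputable def rQ : Q →* (RT k Q rr)ˣ := MonoidHom.toHomUnits
  { toFun := fun q => gR k Q rr (Sum.inr q)
    map_one' := by
      apply vl_inj
      rw [vl_gR, map_one]
      change (lam k Q (qq 1) : EE k Q) = 1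
      have : (qq 1 : G0 Q) = 1 := map_one _
      rw [this, map_one, Units.val_one]
    map_mul' := by
      intro m n
      apply vl_inj
      rw [map_mul, vl_gR, vl_gR, vl_gR]
      exact lam_mul_q k Q m n }

theorem rQ_val (q : Q) : (rQ k Q rr q : RT k Q rr) = gR k Q rr (Sum.inr q) := rfl

noncomputable def rT : (RT k Q rr)ˣ where
  val := gR k Q rr (Sum.inl 1)
  inv := gR k Q rr (Sum.inl 2)
  val_inv := eq_one_of_vl k Q rr (by rw [vl_gR, vl_gR]; exact Units.mul_inv _)
  inv_val := eq_one_of_vl k Q rr (by rw [vl_gR, vl_gR]; exact Units.inv_mul _)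
noncomputable def rB : (RT k Q rr)ˣ where
  val := gR k Q rr (Sum.inl 3)
  inv := gR k Q rr (Sum.inl 4)
  val_inv := eq_one_of_vl k Q rr (by rw [vl_gR, vl_gR]; exact Units.mul_inv _)
  inv_val := eq_one_of_vl k Q rr (by rw [vl_gR, vl_gR]; exact Units.inv_mul _)

theorem conj_uu (n m : Q) : qq n * uu m * (qq n)⁻¹ = uu (n * m) := by
  unfold qq
  rw [← map_inv]
  unfold uu
  rw [← SemidirectProduct.inl_aut]
  congr 1

/-- the inclusion on units -/
noncomputable def incU : (RT k Q rr)ˣ →* (EE k Q)ˣ := Units.map (vl k Q rr : RT k Q rr →* EE k Q)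

theorem incU_val (x : (RT k Q rr)ˣ) : (incU k Q rr x : EE k Q) = vl k Q rr x := rfl

noncomputable def rU (n : Q) : (RT k Q rr)ˣ := rQ k Q rr n * rT k Q rr * (rQ k Q rr n)⁻¹

theorem incU_rQ (n : Q) : incU k Q rr (rQ k Q rr n) = lam k Q (qq n) := by
  apply Units.ext
  rw [incU_val]
  exact vl_gR k Q rr (Sum.inr n)

theorem incU_rT : incU k Q rr (rT k Q rr) = lam k Q (uu (1 : Q)) := by
  apply Units.ext
  rw [incU_val]
  exact vl_gR k Q rr (Sum.inl 1)

theorem incU_rB : incU k Q rr (rB k Q rr) = bl k Q rr := by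
  apply Units.ext
  rw [incU_val]
  exact vl_gR k Q rr (Sum.inl 3)

theorem incU_rU (n : Q) : incU k Q rr (rU k Q rr n) = lam k Q (uu n) := by
  unfold rU
  rw [map_mul, map_mul, map_inv, incU_rQ, incU_rT, ← map_inv, ← map_mul, ← map_mul, conj_uu, mul_one]

theorem rB_comm (n : Q) : (rB k Q rr : RT k Q rr) * (rU k Q rr n : RT k Q rr) =
    (1 + rX k Q rr * evR k Q rr (rr n)) * (rU k Q rr n : RT k Q rr) * (rB k Q rr : RT k Q rr) := by
  apply vl_inj
  have h := congrArg Units.val (incU_rU k Q rr n)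
  rw [incU_val] at h
  have h3 := congrArg Units.val (incU_rB k Q rr)
  rw [incU_val] at h3
  have h2 := bl_comm k Q rr n
  rw [map_mul, map_mul, map_mul, map_add, map_mul, map_one, h, h3, vl_X, vl_evR]
  exact h2

theorem rX_comm (r : RT k Q rr) : r * rX k Q rr = rX k Q rr * r := by
  apply vl_inj
  rw [map_mul, map_mul, vl_X]
  exact (PowerSeries.commute_X _).eq

theorem rX_jac (hrr : Function.Surjective rr) :
    rX k Q rr ∈ Ideal.jacobson (⊥ : Ideal (RT k Q rr)) := by
  rw [Ideal.mem_jacobson_iff]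
  intro y
  obtain ⟨p, hp⟩ := evR_surj k Q rr y
  obtain ⟨n, rfl⟩ := hrr p
  have h := rB_comm k Q rr n
  rw [hp] at h
  let w : (RT k Q rr)ˣ := rB k Q rr * rU k Q rr n * (rB k Q rr)⁻¹ * (rU k Q rr n)⁻¹
  have hw : (w : RT k Q rr) = 1 + rX k Q rr * y := by
    simp only [w, Units.val_mul]
    rw [h]
    calc _ = (1 + rX k Q rr * y) * ((rU k Q rr n : RT k Q rr) * ((rB k Q rr : RT k Q rr) *
          (((rB k Q rr)⁻¹ : (RT k Q rr)ˣ) : RT k Q rr)) * (((rU k Q rr n)⁻¹ : (RT k Q rr)ˣ) : RT k Q rr)) := by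
          simp only [mul_assoc]
      _ = 1 + rX k Q rr * y := by rw [Units.mul_inv, mul_one, Units.mul_inv, mul_one]
  refine ⟨((w⁻¹ : (RT k Q rr)ˣ) : RT k Q rr), ?_⟩
  rw [Ideal.mem_bot, mul_assoc, rX_comm]
  have : ((w⁻¹ : (RT k Q rr)ˣ) : RT k Q rr) * (rX k Q rr * y) + ((w⁻¹ : (RT k Q rr)ˣ) : RT k Q rr) =
      ((w⁻¹ : (RT k Q rr)ˣ) : RT k Q rr) * (1 + rX k Q rr * y) := by rw [mul_add, mul_one, add_comm]
  rw [this, ← hw, Units.inv_mul, sub_self]

theorem rX_ne : rX k Q rr ≠ 0 := by
  intro h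
  have h1 := congrArg (vl k Q rr) h
  rw [vl_X, map_zero] at h1
  exact PowerSeries.X_ne_zero h1

/-- the ideal `X R` -/
noncomputable def IX : Ideal (RT k Q rr) := Ideal.span {rX k Q rr}

instance : (IX k Q rr).IsTwoSided := by
  constructor
  intro a b ha
  unfold IX at *
  rw [Ideal.mem_span_singleton'] at *
  obtain ⟨c, rfl⟩ := ha
  refine ⟨c * b, ?_⟩
  rw [mul_assoc, mul_assoc, rX_comm]

abbrev QQ : Type := RT k Q rr ⧸ IX k Q rr

noncomputable def qm : RT k Q rr →ₐ[k] QQ k Q rr := Ideal.Quotient.mkₐ k (IX k Q rr)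

theorem qm_X : qm k Q rr (rX k Q rr) = 0 := by
  change Ideal.Quotient.mk (IX k Q rr) (rX k Q rr) = 0
  rw [Ideal.Quotient.eq_zero_iff_mem]
  exact Ideal.subset_span rfl

noncomputable def qu : (RT k Q rr)ˣ →* (QQ k Q rr)ˣ := Units.map (qm k Q rr : RT k Q rr →* QQ k Q rr)

theorem qu_comm (n : Q) : Commute (qu k Q rr (rU k Q rr n)) (qu k Q rr (rB k Q rr)) := by
  apply Units.ext
  have h := congrArg (qm k Q rr) (rB_comm k Q rr n)
  rw [map_mul, map_mul, map_mul, map_add, map_mul, qm_X, zero_mul, add_zero, map_one, one_mul] at h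
  exact h.symm

noncomputable def S1 : FreeGroup Q →* (QQ k Q rr)ˣ := FreeGroup.lift (fun n => qu k Q rr (rU k Q rr n))
noncomputable def S2 : FreeGroup Q →* (QQ k Q rr)ˣ :=
  FreeGroup.lift (fun n => qu k Q rr (rQ k Q rr n * rB k Q rr * (rQ k Q rr n)⁻¹))

theorem rU_conj (n m : Q) : rQ k Q rr n * rU k Q rr m * (rQ k Q rr n)⁻¹ = rU k Q rr (n * m) := by
  unfold rU
  rw [map_mul]
  group

theorem S_comm (p q : FreeGroup Q) : Commute (S1 k Q rr p) (S2 k Q rr q) := by
  induction p using FreeGroup.induction_on with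
  | C1 => rw [map_one]; exact Commute.one_left _
  | of n =>
    induction q using FreeGroup.induction_on with
    | C1 => rw [map_one]; exact Commute.one_right _
    | of m =>
      unfold S1 S2
      rw [FreeGroup.lift_apply_of, FreeGroup.lift_apply_of]
      have h := qu_comm k Q rr (m⁻¹ * n)
      have h2 : rU k Q rr n = rQ k Q rr m * rU k Q rr (m⁻¹ * n) * (rQ k Q rr m)⁻¹ := by
        rw [rU_conj]; congr 1; group
      rw [h2]
      simp only [map_mul, map_inv]
      exact h.conj _
    | inv_of m hm => rw [map_inv]; exact hm.inv_right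
    | mul q q' hq hq' => rw [map_mul]; exact hq.mul_right hq'
  | inv_of n hn => rw [map_inv]; exact hn.inv_left
  | mul p p' hp hp' => rw [map_mul]; exact hp.mul_left hp'

noncomputable def SN : FreeGroup Q × FreeGroup Q →* (QQ k Q rr)ˣ :=
  MonoidHom.noncommCoprod (S1 k Q rr) (S2 k Q rr) (S_comm k Q rr)

noncomputable def S3 : Q →* (QQ k Q rr)ˣ := (qu k Q rr).comp (rQ k Q rr)

theorem S1_shf (m : Q) (p : FreeGroup Q) :
    S1 k Q rr (shf Q m p) = qu k Q rr (rQ k Q rr m) * S1 k Q rr p * (qu k Q rr (rQ k Q rr m))⁻¹ := by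
  have : (S1 k Q rr).comp (shf Q m).toMonoidHom =
      (MulAut.conj (qu k Q rr (rQ k Q rr m))).toMonoidHom.comp (S1 k Q rr) := by
    ext n : 1
    simp only [MonoidHom.comp_apply, MulEquiv.coe_toMonoidHom, shf_of, MulAut.conj_apply]
    unfold S1
    rw [FreeGroup.lift_apply_of, FreeGroup.lift_apply_of, ← rU_conj, map_mul, map_mul, map_inv]
  exact DFunLike.congr_fun this p

theorem S2_shf (m : Q) (p : FreeGroup Q) :
    S2 k Q rr (shf Q m p) = qu k Q rr (rQ k Q rr m) * S2 k Q rr p * (qu k Q rr (rQ k Q rr m))⁻¹ := by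
  have : (S2 k Q rr).comp (shf Q m).toMonoidHom =
      (MulAut.conj (qu k Q rr (rQ k Q rr m))).toMonoidHom.comp (S2 k Q rr) := by
    ext n : 1
    simp only [MonoidHom.comp_apply, MulEquiv.coe_toMonoidHom, shf_of, MulAut.conj_apply]
    unfold S2
    rw [FreeGroup.lift_apply_of, FreeGroup.lift_apply_of]
    simp only [map_mul, map_inv]
    group
  exact DFunLike.congr_fun this p

noncomputable def SG : G0 Q →* (QQ k Q rr)ˣ :=
  SemidirectProduct.lift (SN k Q rr) (S3 k Q rr) (by
    intro g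
    apply MonoidHom.ext
    rintro ⟨p, q⟩
    have h1 : (act Q g) (p, q) = (shf Q g p, shf Q g q) := rfl
    simp only [MonoidHom.comp_apply, MulEquiv.coe_toMonoidHom, h1, MulAut.conj_apply]
    unfold SN S3
    rw [MonoidHom.noncommCoprod_apply, MonoidHom.noncommCoprod_apply, S1_shf, S2_shf]
    change _ = (qu k Q rr) (rQ k Q rr g) * _ * ((qu k Q rr) (rQ k Q rr g))⁻¹
    group)

/-- the algebra map from the group algebra of `G0` to `R / X R` -/
noncomputable def HH : Lam k Q →ₐ[k] QQ k Q rr :=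
  MonoidAlgebra.lift k (QQ k Q rr) (G0 Q) ((Units.coeHom (QQ k Q rr)).comp (SG k Q rr))

theorem HH_single (g : G0 Q) : HH k Q rr (MonoidAlgebra.single g 1) = (SG k Q rr g : QQ k Q rr) := by
  simp [HH]

theorem SG_qq (n : Q) : SG k Q rr (qq n) = qu k Q rr (rQ k Q rr n) := by
  unfold SG qq
  rw [SemidirectProduct.lift_inr]
  rfl

theorem S1_of (n : Q) : S1 k Q rr (FreeGroup.of n) = qu k Q rr (rU k Q rr n) := by
  unfold S1
  rw [FreeGroup.lift_apply_of]

theorem S2_of (n : Q) : S2 k Q rr (FreeGroup.of n) =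
    qu k Q rr (rQ k Q rr n * rB k Q rr * (rQ k Q rr n)⁻¹) := by
  unfold S2
  rw [FreeGroup.lift_apply_of]

theorem SN_apply (p q : FreeGroup Q) : SN k Q rr (p, q) = S1 k Q rr p * S2 k Q rr q := rfl

theorem SG_inl (x : FreeGroup Q × FreeGroup Q) : SG k Q rr (SemidirectProduct.inl x) = SN k Q rr x := by
  unfold SG
  rw [SemidirectProduct.lift_inl]

theorem SG_inr (x : Q) : SG k Q rr (SemidirectProduct.inr x) = S3 k Q rr x := by
  unfold SG
  rw [SemidirectProduct.lift_inr]

theorem SG_uu : SG k Q rr (uu (1 : Q)) = qu k Q rr (rT k Q rr) := by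
  unfold uu
  rw [SG_inl, SN_apply, S1_of, map_one, mul_one]
  unfold rU
  rw [map_one, one_mul, inv_one, mul_one]

theorem SG_bb : SG k Q rr (bb (1 : Q)) = qu k Q rr (rB k Q rr) := by
  unfold bb
  rw [SG_inl, SN_apply, S2_of, map_one, one_mul, map_one, one_mul, inv_one, mul_one]

theorem HH_surj (f : RT k Q rr) : ∃ l, HH k Q rr l = qm k Q rr f := by
  obtain ⟨p, rfl⟩ := evR_surj k Q rr f
  induction p with
  | grade0 r =>
    exact ⟨algebraMap k _ r, by rw [AlgHom.commutes, AlgHom.commutes, AlgHom.commutes]⟩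
  | grade1 j =>
    change ∃ l, HH k Q rr l = qm k Q rr (gR k Q rr j)
    rcases j with j | q
    · fin_cases j
      · refine ⟨0, ?_⟩
        rw [map_zero]; exact (qm_X k Q rr).symm
      · refine ⟨MonoidAlgebra.single (uu (1 : Q)) 1, ?_⟩
        rw [HH_single, SG_uu]; rfl
      · refine ⟨MonoidAlgebra.single (uu (1 : Q))⁻¹ 1, ?_⟩
        rw [HH_single, map_inv, SG_uu]; rfl
      · refine ⟨MonoidAlgebra.single (bb (1 : Q)) 1, ?_⟩
        rw [HH_single, SG_bb]; rfl
      · refine ⟨MonoidAlgebra.single (bb (1 : Q))⁻¹ 1, ?_⟩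
        rw [HH_single, map_inv, SG_bb]; rfl
    · refine ⟨MonoidAlgebra.single (qq q) 1, ?_⟩
      rw [HH_single, SG_qq]; rfl
  | mul p q hp hq =>
    obtain ⟨l, hl⟩ := hp
    obtain ⟨l', hl'⟩ := hq
    exact ⟨l * l', by rw [map_mul, hl, hl', map_mul, map_mul]⟩
  | add p q hp hq =>
    obtain ⟨l, hl⟩ := hp
    obtain ⟨l', hl'⟩ := hq
    exact ⟨l + l', by rw [map_add, hl, hl', map_add, map_add]⟩

/-- the map `R → End Λ` -/
noncomputable def cc : RT k Q rr →+* E0 k Q := (PowerSeries.constantCoeff).comp (vl k Q rr).toRingHom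

theorem cc_apply (f : RT k Q rr) : cc k Q rr f = constantCoeff (vl k Q rr f) := rfl

theorem cc_X : cc k Q rr (rX k Q rr) = 0 := by
  rw [cc_apply, vl_X, PowerSeries.constantCoeff_X]

noncomputable def dn : QQ k Q rr →+* E0 k Q := Ideal.Quotient.lift (IX k Q rr) (cc k Q rr) (by
  intro a ha
  unfold IX at ha
  rw [Ideal.mem_span_singleton'] at ha
  obtain ⟨c, rfl⟩ := ha
  rw [map_mul, cc_X, mul_zero])

theorem dn_qm (f : RT k Q rr) : dn k Q rr (qm k Q rr f) = cc k Q rr f := rfl

noncomputable def ccU : (RT k Q rr)ˣ →* (E0 k Q)ˣ := Units.map (cc k Q rr : RT k Q rr →* E0 k Q)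
noncomputable def LmU : G0 Q →* (E0 k Q)ˣ :=
  ((Units.map ((Lm k Q : Lam k Q →* E0 k Q))).comp (MonoidAlgebra.of k (G0 Q)).toHomUnits)
noncomputable def dnU : (QQ k Q rr)ˣ →* (E0 k Q)ˣ := Units.map (dn k Q rr : QQ k Q rr →* E0 k Q)

theorem LmU_val (g : G0 Q) : (LmU k Q g : E0 k Q) = Lm k Q (MonoidAlgebra.single g 1) := rfl

theorem dnU_qu (x : (RT k Q rr)ˣ) : dnU k Q rr (qu k Q rr x) = ccU k Q rr x := rfl

theorem ccU_rQ (n : Q) : ccU k Q rr (rQ k Q rr n) = LmU k Q (qq n) := by
  apply Units.ext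
  have h : ((ccU k Q rr (rQ k Q rr n) : (E0 k Q)ˣ) : E0 k Q) =
      constantCoeff (vl k Q rr (rQ k Q rr n)) := rfl
  rw [h, ← incU_val, incU_rQ, lam_val, PowerSeries.constantCoeff_C, LmU_val]

theorem ccU_rT : ccU k Q rr (rT k Q rr) = LmU k Q (uu (1 : Q)) := by
  apply Units.ext
  have h : ((ccU k Q rr (rT k Q rr) : (E0 k Q)ˣ) : E0 k Q) = constantCoeff (vl k Q rr (rT k Q rr)) := rfl
  rw [h, ← incU_val, incU_rT, lam_val, PowerSeries.constantCoeff_C, LmU_val]

theorem ccU_rB : ccU k Q rr (rB k Q rr) = LmU k Q (bb (1 : Q)) := by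
  apply Units.ext
  have h : ((ccU k Q rr (rB k Q rr) : (E0 k Q)ˣ) : E0 k Q) = constantCoeff (vl k Q rr (rB k Q rr)) := rfl
  rw [h, ← incU_val, incU_rB]
  exact blim_const k Q rr

theorem ccU_rU (n : Q) : ccU k Q rr (rU k Q rr n) = LmU k Q (uu n) := by
  unfold rU
  rw [map_mul, map_mul, map_inv, ccU_rQ, ccU_rT, ← map_inv, ← map_mul, ← map_mul, conj_uu, mul_one]

theorem conj_bb (n m : Q) : qq n * bb m * (qq n)⁻¹ = bb (n * m) := by
  unfold qq
  rw [← map_inv]
  unfold bb
  rw [← SemidirectProduct.inl_aut]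
  congr 1

theorem dnU_SG (g : G0 Q) : dnU k Q rr (SG k Q rr g) = LmU k Q g := by
  have : (dnU k Q rr).comp (SG k Q rr) = LmU k Q := by
    apply SemidirectProduct.hom_ext
    · apply MonoidHom.ext
      rintro ⟨p, q⟩
      have h0 : ((p, q) : FreeGroup Q × FreeGroup Q) = (p, 1) * (1, q) := by simp
      rw [h0, map_mul, map_mul]
      congr 1
      · have h1 : ((dnU k Q rr).comp (SG k Q rr)).comp ((SemidirectProduct.inl).comp (MonoidHom.inl _ _)) =
            (LmU k Q).comp ((SemidirectProduct.inl).comp (MonoidHom.inl _ _)) := by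
          ext n : 1
          simp only [MonoidHom.comp_apply, MonoidHom.inl_apply]
          rw [SG_inl, SN_apply, S1_of, map_one, mul_one, dnU_qu, ccU_rU]
          rfl
        exact DFunLike.congr_fun h1 p
      · have h1 : ((dnU k Q rr).comp (SG k Q rr)).comp ((SemidirectProduct.inl).comp (MonoidHom.inr _ _)) =
            (LmU k Q).comp ((SemidirectProduct.inl).comp (MonoidHom.inr _ _)) := by
          ext n : 1
          simp only [MonoidHom.comp_apply, MonoidHom.inr_apply]
          rw [SG_inl, SN_apply, S2_of, map_one, one_mul, dnU_qu, map_mul, map_mul, map_inv,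
            ccU_rQ, ccU_rB, ← map_inv, ← map_mul, ← map_mul, conj_bb, mul_one]
          rfl
        exact DFunLike.congr_fun h1 q
    · apply MonoidHom.ext
      intro m
      simp only [MonoidHom.comp_apply]
      rw [SG_inr]
      have h2 : S3 k Q rr m = qu k Q rr (rQ k Q rr m) := rfl
      rw [h2, dnU_qu, ccU_rQ]
      rfl
  exact DFunLike.congr_fun this g

theorem dn_HH (l : Lam k Q) : dn k Q rr (HH k Q rr l) = Lm k Q l := by
  induction l using MonoidAlgebra.induction_linear with
  | zero => simp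
  | add x y hx hy => rw [map_add, map_add, map_add, hx, hy]
  | single g r =>
    have h1 : (MonoidAlgebra.single g r : Lam k Q) = algebraMap k _ r * MonoidAlgebra.single g 1 := by
      simp
    have h2 := congrArg Units.val (dnU_SG k Q rr g)
    have h3 : dn k Q rr (HH k Q rr (MonoidAlgebra.single g 1)) = Lm k Q (MonoidAlgebra.single g 1) := by
      rw [HH_single]; exact h2
    rw [h1, map_mul, map_mul, map_mul, h3, AlgHom.commutes, AlgHom.commutes]
    congr 1

/-- key lemma: an element of `R` with zero constant coefficient is in `X R` -/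
theorem key (f : RT k Q rr) (hf : constantCoeff (vl k Q rr f) = 0) : ∃ g : RT k Q rr, f = rX k Q rr * g := by
  obtain ⟨l, hl⟩ := HH_surj k Q rr f
  have h1 : Lm k Q l = 0 := by
    rw [← dn_HH k Q rr l, hl, dn_qm, cc_apply, hf]
  have h2 : l = 0 := by
    apply Lm_inj k Q
    rw [h1, map_zero]
  rw [h2, map_zero] at hl
  have h3 : f ∈ IX k Q rr := by
    rw [← Ideal.Quotient.eq_zero_iff_mem]
    exact hl.symm
  unfold IX at h3
  rw [Ideal.mem_span_singleton'] at h3
  obtain ⟨g, rfl⟩ := h3
  exact ⟨g, rX_comm k Q rr g⟩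

/-- the constant coefficients of elements of `R` are left multiplications -/
theorem cc_form (f : RT k Q rr) : ∃ l, Lm k Q l = constantCoeff (vl k Q rr f) := by
  obtain ⟨l, hl⟩ := HH_surj k Q rr f
  exact ⟨l, by rw [← dn_HH k Q rr l, hl, dn_qm, cc_apply]⟩

/-- every nonzero element is a power of `X` times an element with nonzero constant coefficient -/
theorem factor (f : RT k Q rr) (hf : f ≠ 0) : ∃ (n : ℕ) (g : RT k Q rr), f = rX k Q rr ^ n * g ∧
    constantCoeff (vl k Q rr g) ≠ 0 := by
  by_contra hcon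
  push Not at hcon
  have h : ∀ n : ℕ, ∃ g : RT k Q rr, f = rX k Q rr ^ n * g := by
    intro n
    induction n with
    | zero => exact ⟨f, by rw [pow_zero, one_mul]⟩
    | succ n ih =>
      obtain ⟨g, hg⟩ := ih
      obtain ⟨g', hg'⟩ := key k Q rr g (hcon n g hg)
      exact ⟨g', by rw [hg, hg', ← mul_assoc, ← pow_succ]⟩
  apply hf
  apply vl_inj
  rw [map_zero]
  ext n : 1
  obtain ⟨g, hg⟩ := h (n + 1)
  rw [hg, map_mul, map_pow, vl_X, map_zero]
  have := (PowerSeries.X_pow_dvd_iff (n := n + 1) (φ := (X : EE k Q) ^ (n + 1) * vl k Q rr g)).mp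
    (Dvd.intro _ rfl) n (by omega)
  exact this

theorem RT_nzd [UniqueProds Q] : NoZeroDivisors (RT k Q rr) where
  eq_zero_or_eq_zero_of_mul_eq_zero := by
    intro f g hfg
    by_contra hcon
    push Not at hcon
    obtain ⟨hf, hg⟩ := hcon
    obtain ⟨n, f', rfl, hf'⟩ := factor k Q rr f hf
    obtain ⟨m, g', rfl, hg'⟩ := factor k Q rr g hg
    obtain ⟨l, hl⟩ := cc_form k Q rr f'
    obtain ⟨l', hl'⟩ := cc_form k Q rr g'
    have h1 : vl k Q rr (f' * g') ≠ 0 := by
      intro h
      have h2 := congrArg constantCoeff h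
      rw [map_mul, map_mul, ← hl, ← hl', ← map_mul, map_zero] at h2
      have h3 : l * l' = 0 := by
        apply Lm_inj k Q
        rw [h2, map_zero]
      rcases mul_eq_zero.mp h3 with h | h
      · rw [h, map_zero] at hl; exact hf' hl.symm
      · rw [h, map_zero] at hl'; exact hg' hl'.symm
    apply h1
    have h4 := congrArg (vl k Q rr) hfg
    have h5 : rX k Q rr ^ n * f' * (rX k Q rr ^ m * g') = rX k Q rr ^ (n + m) * (f' * g') := by
      have hc : f' * rX k Q rr ^ m = rX k Q rr ^ m * f' :=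
        (Commute.pow_right (rX_comm k Q rr f') m)
      rw [pow_add]
      calc rX k Q rr ^ n * f' * (rX k Q rr ^ m * g') = rX k Q rr ^ n * (f' * rX k Q rr ^ m) * g' := by
            simp only [mul_assoc]
        _ = _ := by rw [hc]; simp only [mul_assoc]
    rw [h5, map_mul, map_pow, vl_X, map_zero] at h4
    ext j : 1
    have h6 := congrArg (coeff (j + (n + m))) h4
    rwa [PowerSeries.coeff_X_pow_mul] at h6

theorem exists_rr [Countable k] [Countable Q] [Infinite Q] :
    ∃ rr : Q → FreeAlgebra k (Gn Q), Function.Surjective rr := by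
  have h1 : Cardinal.mk (FreeAlgebra k (Gn Q)) ≤ Cardinal.aleph0 := by
    refine (FreeAlgebra.cardinalMk_le_max_lift k (Gn Q)).trans ?_
    simp
  have h2 : Countable (FreeAlgebra k (Gn Q)) := Cardinal.mk_le_aleph0_iff.mp h1
  obtain ⟨e⟩ : Nonempty (Q ≃ ℕ) := nonempty_equiv_of_countable
  obtain ⟨f, hf⟩ := exists_surjective_nat (FreeAlgebra k (Gn Q))
  exact ⟨fun n => f (e n), fun y => by
    obtain ⟨n, hn⟩ := hf y
    exact ⟨e.symm n, by simpa using hn⟩⟩


end main

end Pool.Agent.Y704.JQ
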