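import Mathlib

set_option autoImplicit false

namespace Pool.Agent.Y704.JQ

open Finset

section

variable {k : Type} [CommRing k] [IsDomain k] {G : Type} [Group G] [UniqueProds G]

/-- factors of one in a group algebra of a group with unique products over a domain have supports
with one element -/
theorem card_mul_card_le (x y : MonoidAlgebra k G) (h : x * y = 1) :
    #x.coeff.support * #y.coeff.support ≤ 1 := by
  classical
  by_contra hc
  have hc' : 1 < #x.coeff.support * #y.coeff.support := by omega
  have : TwoUniqueProds G := UniqueProds.toTwoUniqueProds_of_group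
  obtain ⟨p1, h1, p2, h2, hne, hu1, hu2⟩ := TwoUniqueProds.uniqueMul_of_one_lt_card hc'
  rw [mem_product] at h1 h2
  have e1 := MonoidAlgebra.coeff_mul_mul_of_uniqueMul (f := x) (g := y) hu1
  have e2 := MonoidAlgebra.coeff_mul_mul_of_uniqueMul (f := x) (g := y) hu2
  have n1 : (x * y).coeff (p1.1 * p1.2) ≠ 0 := by
    rw [e1]
    exact mul_ne_zero (Finsupp.mem_support_iff.mp h1.1) (Finsupp.mem_support_iff.mp h1.2)
  have n2 : (x * y).coeff (p2.1 * p2.2) ≠ 0 := by
    rw [e2]
    exact mul_ne_zero (Finsupp.mem_support_iff.mp h2.1) (Finsupp.mem_support_iff.mp h2.2)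
  rw [h] at n1 n2
  have q : ∀ g : G, (1 : MonoidAlgebra k G).coeff g ≠ 0 → g = 1 := by
    intro g hg
    by_contra hq
    apply hg
    rw [MonoidAlgebra.one_def, MonoidAlgebra.coeff_single, Finsupp.single_apply, if_neg]
    exact fun h => hq h.symm
  have q1 := q _ n1
  have q2 := q _ n2
  have h3 := hu1 h2.1 h2.2 (q2.trans q1.symm)
  exact hne (Prod.ext h3.1.symm h3.2.symm)

/-- the group algebra is semiprimitive, in the form in which it is used -/
theorem eq_zero_of_left_inv [Infinite G] (l : MonoidAlgebra k G)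
    (hl : ∀ g : G, ∃ z : MonoidAlgebra k G, z * (MonoidAlgebra.single g 1 * l + 1) = 1) :
    l = 0 := by
  classical
  by_contra hne
  have hs : l.coeff.support.Nonempty := by
    rw [Finsupp.support_nonempty_iff]
    intro h
    exact hne (by rwa [MonoidAlgebra.coeff_eq_zero] at h)
  obtain ⟨s, hs⟩ := hs
  obtain ⟨h, hh⟩ := Infinite.exists_notMem_finset l.coeff.support
  obtain ⟨z, hz⟩ := hl h⁻¹
  have hc := card_mul_card_le _ _ hz
  have hsh : s ≠ h := fun e => hh (e ▸ hs)
  have c1 : (1 : G) ∈ (MonoidAlgebra.single h⁻¹ 1 * l + 1 : MonoidAlgebra k G).coeff.support := by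
    rw [Finsupp.mem_support_iff, MonoidAlgebra.coeff_add, Finsupp.add_apply,
      MonoidAlgebra.coeff_single_mul_apply, MonoidAlgebra.coeff_one_one, inv_inv, mul_one,
      Finsupp.notMem_support_iff.mp hh, mul_zero, zero_add]
    exact one_ne_zero
  have c2 : h⁻¹ * s ∈
      (MonoidAlgebra.single h⁻¹ 1 * l + 1 : MonoidAlgebra k G).coeff.support := by
    rw [Finsupp.mem_support_iff, MonoidAlgebra.coeff_add, Finsupp.add_apply,
      MonoidAlgebra.coeff_single_mul_apply, inv_inv, mul_inv_cancel_left, one_mul]
    have : (1 : MonoidAlgebra k G).coeff (h⁻¹ * s) = 0 := by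
      rw [MonoidAlgebra.one_def, MonoidAlgebra.coeff_single, Finsupp.single_apply, if_neg]
      intro e
      apply hsh
      rw [eq_comm, inv_mul_eq_one] at e
      exact e.symm
    rw [this, add_zero]
    exact Finsupp.mem_support_iff.mp hs
  have c3 : 1 ≠ h⁻¹ * s := by
    intro e
    rw [eq_comm, inv_mul_eq_one] at e
    exact hsh e.symm
  have c4 : 2 ≤ #(MonoidAlgebra.single h⁻¹ 1 * l + 1 : MonoidAlgebra k G).coeff.support := by
    have := Finset.card_le_card (show ({1, h⁻¹ * s} : Finset G) ⊆ _ from by
      intro a ha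
      rw [Finset.mem_insert, Finset.mem_singleton] at ha
      rcases ha with rfl | rfl
      · exact c1
      · exact c2)
    rwa [Finset.card_pair c3] at this
  have c5 : 1 ≤ #z.coeff.support := by
    rw [Nat.one_le_iff_ne_zero, Ne, Finset.card_eq_zero, Finsupp.support_eq_empty]
    intro h0
    rw [MonoidAlgebra.coeff_eq_zero] at h0
    rw [h0, zero_mul] at hz
    have h1 := congrArg (fun f : MonoidAlgebra k G => f.coeff 1) hz
    simp only [MonoidAlgebra.coeff_one_one, MonoidAlgebra.coeff_zero, Finsupp.coe_zero,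
      Pi.zero_apply] at h1
    exact one_ne_zero h1.symm
  have := Nat.mul_le_mul c5 c4
  omega

end

end Pool.Agent.Y704.JQ
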