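import Pool.Agent.Y704.JR.Base
import Pool.Agent.Y704.JR.Grp

set_option autoImplicit false
set_option linter.unusedSectionVars false

namespace Pool.Agent.Y704.JQ

open PowerSeries

section

variable (k : Type) [CommRing k] [IsDomain k] (Q : Type) [Group Q]

instance infinite_G0 [Infinite Q] : Infinite (G0 Q) := by
  apply Infinite.of_injective (fun n : Q => (SemidirectProduct.inr n : G0 Q))
  intro a b h
  exact SemidirectProduct.inr_injective h

variable (rr : Q → FreeAlgebra k (Gn Q))

theorem qm_surj : Function.Surjective (qm k Q rr) := Ideal.Quotient.mkₐ_surjective k (IX k Q rr)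

theorem exists_lift (g : G0 Q) :
    ∃ y : RT k Q rr, cc k Q rr y = Lm k Q (MonoidAlgebra.single g 1) := by
  obtain ⟨y, hy⟩ := qm_surj k Q rr (SG k Q rr g : QQ k Q rr)
  refine ⟨y, ?_⟩
  rw [← dn_qm, hy]
  exact congrArg Units.val (dnU_SG k Q rr g)

theorem mem_IX {f : RT k Q rr} (hf : cc k Q rr f = 0) : f ∈ IX k Q rr := by
  obtain ⟨g, rfl⟩ := key k Q rr f hf
  unfold IX
  rw [Ideal.mem_span_singleton']
  exact ⟨g, rX_comm k Q rr g⟩

theorem jac_le [Infinite Q] [UniqueProds Q] :
    Ideal.jacobson (⊥ : Ideal (RT k Q rr)) ≤ IX k Q rr := by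
  intro f hf
  rw [Ideal.mem_jacobson_iff] at hf
  apply mem_IX
  obtain ⟨l, hl⟩ := cc_form k Q rr f
  have h0 : l = 0 := by
    apply eq_zero_of_left_inv
    intro g
    obtain ⟨y, hy⟩ := exists_lift k Q rr g
    obtain ⟨z, hz⟩ := hf y
    obtain ⟨m, hm⟩ := cc_form k Q rr z
    refine ⟨m, ?_⟩
    rw [Ideal.mem_bot, sub_eq_zero] at hz
    apply Lm_inj k Q
    have h1 : cc k Q rr z * (cc k Q rr y * cc k Q rr f + 1) = 1 := by
      rw [← map_mul, ← map_one (cc k Q rr), ← map_add, ← map_mul, mul_add, mul_one, ← mul_assoc,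
        hz]
    rw [map_mul, map_add, map_mul, map_one, hl, hm, ← hy]
    exact h1
  rw [cc_apply, ← hl, h0, map_zero]

theorem jac_eq [Infinite Q] [UniqueProds Q] (hrr : Function.Surjective rr) :
    Ideal.jacobson (⊥ : Ideal (RT k Q rr)) = IX k Q rr := by
  apply le_antisymm (jac_le k Q rr)
  unfold IX
  rw [Ideal.span_le, Set.singleton_subset_iff]
  exact rX_jac k Q rr hrr

theorem HH_bij : Function.Bijective (HH k Q rr) := by
  constructor
  · intro x y h
    apply Lm_inj k Q
    rw [← dn_HH k Q rr x, ← dn_HH k Q rr y, h]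
  · intro q
    obtain ⟨f, rfl⟩ := qm_surj k Q rr q
    exact HH_surj k Q rr f

theorem separated (f : RT k Q rr) (hf : ∀ n : ℕ, ∃ g : RT k Q rr, f = rX k Q rr ^ n * g)
    [UniqueProds Q] : f = 0 := by
  by_contra hne
  obtain ⟨n, g, hg, hc⟩ := factor k Q rr f hne
  obtain ⟨g', hg'⟩ := hf (n + 1)
  have := RT_nzd k Q rr
  have h1 : rX k Q rr ^ n * (g - rX k Q rr * g') = 0 := by
    rw [mul_sub, ← mul_assoc, ← pow_succ, ← hg, ← hg', sub_self]
  rcases mul_eq_zero.mp h1 with h | h
  · have h2 : (X : EE k Q) ^ n = 0 := by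
      have := congrArg (vl k Q rr) h
      rwa [map_pow, vl_X, map_zero] at this
    have h3 := congrArg (coeff n) h2
    rw [PowerSeries.coeff_X_pow_self, map_zero] at h3
    exact one_ne_zero h3
  · apply hc
    rw [sub_eq_zero.mp h, map_mul, vl_X, map_mul, PowerSeries.constantCoeff_X, zero_mul]

/-- the group algebra of `Q` inside the ring -/
noncomputable def inc : MonoidAlgebra k Q →ₐ[k] RT k Q rr :=
  MonoidAlgebra.lift k (RT k Q rr) Q ((Units.coeHom (RT k Q rr)).comp (rQ k Q rr))

theorem inc_single (q : Q) : inc k Q rr (MonoidAlgebra.single q 1) = (rQ k Q rr q : RT k Q rr) := by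
  simp [inc]

/-- the ring modulo `X` is the group algebra of `(F(Q) × F(Q)) ⋊ Q` -/
noncomputable def eqv : QQ k Q rr ≃ₐ[k] Lam k Q :=
  (AlgEquiv.ofBijective (HH k Q rr) (HH_bij k Q rr)).symm

/-- the projection onto the group algebra of `Q` -/
noncomputable def prj : RT k Q rr →ₐ[k] MonoidAlgebra k Q :=
  (MonoidAlgebra.mapDomainAlgHom k k (SemidirectProduct.rightHom : G0 Q →* Q)).comp
    ((eqv k Q rr).toAlgHom.comp (qm k Q rr))

theorem prj_inc : (prj k Q rr).comp (inc k Q rr) = AlgHom.id k _ := by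
  refine MonoidAlgebra.algHom_ext (fun q => ?_) (Subsingleton.elim _ _)
  have h1 : eqv k Q rr (qm k Q rr (rQ k Q rr q)) = MonoidAlgebra.single (qq q) 1 := by
    unfold eqv
    rw [AlgEquiv.symm_apply_eq]
    change _ = HH k Q rr _
    rw [HH_single, SG_qq]
    rfl
  rw [AlgHom.comp_apply, inc_single]
  change MonoidAlgebra.mapDomainAlgHom k k (SemidirectProduct.rightHom : G0 Q →* Q)
    (eqv k Q rr (qm k Q rr (rQ k Q rr q))) = _
  rw [h1]
  simp [qq]

theorem prj_X : prj k Q rr (rX k Q rr) = 0 := by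
  change MonoidAlgebra.mapDomainAlgHom k k (SemidirectProduct.rightHom : G0 Q →* Q)
    (eqv k Q rr (qm k Q rr (rX k Q rr))) = _
  rw [qm_X, map_zero, map_zero]

/-- the subalgebra generated by the group algebra of `Q`, by `X`, by two elements and by their
inverses is everything -/
theorem adjoin_eq : Algebra.adjoin k (Set.range (inc k Q rr) ∪
    Set.range (fun j : Fin 5 => gR k Q rr (Sum.inl j))) = ⊤ := by
  rw [eq_top_iff]
  intro f _
  obtain ⟨p, rfl⟩ := evR_surj k Q rr f
  induction p with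
  | grade0 r => rw [AlgHom.commutes]; exact Subalgebra.algebraMap_mem _ r
  | grade1 x =>
    rcases x with j | q
    · exact Algebra.subset_adjoin (Or.inr ⟨j, rfl⟩)
    · exact Algebra.subset_adjoin (Or.inl ⟨MonoidAlgebra.single q 1, inc_single k Q rr q⟩)
  | mul p q hp hq => rw [map_mul]; exact Subalgebra.mul_mem _ (hp trivial) (hq trivial)
  | add p q hp hq => rw [map_add]; exact Subalgebra.add_mem _ (hp trivial) (hq trivial)

end

end Pool.Agent.Y704.JQ
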